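import Pool.Agent.Work.MP_59f3ad_nt.US.H.Stmts
import Pool.Agent.Work.MP_59f3ad_nt.FE.StmtsE

/-!
# Uniform Schneider, part T (captain helper44): the twists `r ≡ 0` modulo `p - 1`, `r ≠ 0`

With this part EFFECTIVE SCHNEIDER bounds the number of exceptional twists among ALL `r ≠ 0`: the
twists `r ≡ 0 mod p - 1` are controlled by the class number of the subfield `K₁` of `L(μ_(p²))` of
degree `p` over `L` (the character `χ^(p-1)` instead of `χ`, level `2`). Every docstring is the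
complete proof.
-/

set_option autoImplicit false

open NumberField IsDedekindDomain Filter Topology

namespace Pool.Agent.Work.MP_59f3ad_nt.US.T

universe u

/-- (Dc2, EASY-MEDIUM) Degree and discriminant of `L(μ_(p²))`. Copy `US/H/I_Dc.lean` (item Dc, the case
`L(μ_p)`): there `IsCyclotomicExtension.Rat.discr_prime` is replaced by
`IsCyclotomicExtension.Rat.discr_prime_pow` (`k = 2`, exponent `p^1 ((p-1) 2 - 1) = p (2 p - 3)`) and
the degree is `totient (p^2) = p (p-1)`. -/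
def Dc2 : Prop :=
  ∀ (L K : Type) [Field L] [NumberField L] [Field K] [NumberField K] [Algebra L K] (p : ℕ),
    p.Prime → p ≠ 2 → IsCyclotomicExtension {p ^ 2} L K → ¬ (p : ℤ) ∣ discr L →
    Module.finrank L K = p * (p - 1) ∧
      (discr K).natAbs =
        (discr L).natAbs ^ (p * (p - 1)) * p ^ (p * (2 * p - 3) * Module.finrank ℚ L)

/-- (Dk, EASY-MEDIUM) The subfield of degree `p`. `[K : K₁] = p - 1` by `Dc2` and the tower law,
`|discr K₁|^(p-1)` divides `|discr K|`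
(`NumberField.natAbs_discr_eq_absNorm_differentIdeal_mul_natAbs_discr_pow`), and
`|discr K| = D^(p (p-1)) p^(p (2p-3) d) ≤ (D^p p^(2 p d))^(p-1)` as `p (2p-3) ≤ 2 p (p-1)`; take
`(p-1)`-th roots (`pow_le_pow_left_iff` or similar). -/
def Dk : Prop :=
  Dc2 → ∀ (L K₁ K : Type) [Field L] [NumberField L] [Field K₁] [NumberField K₁] [Field K]
    [NumberField K] [Algebra L K₁] [Algebra K₁ K] [Algebra L K] [IsScalarTower L K₁ K] (p : ℕ),
    p.Prime → p ≠ 2 → IsCyclotomicExtension {p ^ 2} L K → ¬ (p : ℤ) ∣ discr L →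
    Module.finrank L K₁ = p →
    Module.finrank ℚ K₁ = p * Module.finrank ℚ L ∧
      (discr K₁).natAbs ≤ (discr L).natAbs ^ p * p ^ (2 * p * Module.finrank ℚ L)

/-- (As3, EASY) Asymptotics. Copy `US/H/I_As.lean` (item As). With `s = 1 + 1/log p`,
`s/(s-1) = 1 + log p`: `k log p ≤ s/2 (p log D + 2 p d log p) + p d log(1 + log p)`. Divide by
`log p`: `k ≤ p ((1 + 1/log p)/2 (log D/log p + 2 d) + d log(1 + log p)/log p)` and the bracket tends
to `d`. -/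
def As3 : Prop :=
  ∀ (d D : ℕ), 0 < d → 0 < D → ∀ ε : ℝ, 0 < ε → ∃ p₀ : ℕ, ∀ p : ℕ, p.Prime → p₀ ≤ p →
    ∀ k h : ℕ, 0 < h → p ^ k ∣ h →
    (∀ s : ℝ, 1 < s → (h : ℝ) ≤
      (√((D ^ p * p ^ (2 * p * d) : ℕ) : ℝ)) ^ s * (s / (s - 1)) ^ (p * d)) →
    (k : ℝ) ≤ (1 + ε) * d * p

/-- (TA3, EASY) Copy `US/H/I_TA.lean`: `As3` for `d = finrank ℚ L`, `D = |discr L|`, `p₀` enlarged such that
`p₀ > |discr L|`, `p₀ > 2`; `H.Cl` for `K₁`, `Dk`; `(√|discr K₁|)^s ≤ (√(D^p p^(2pd)))^s` by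
monotonicity. -/
def TA3 : Prop :=
  H.Eul → H.Ov → H.Cl → Dc2 → Dk → As3 → ∀ (L : Type) [Field L] [NumberField L] (ε : ℝ), 0 < ε →
    ∃ p₀ : ℕ, ∀ p : ℕ, p.Prime → p₀ ≤ p → ∀ (K₁ K : Type) [Field K₁] [NumberField K₁] [Field K]
    [NumberField K] [Algebra L K₁] [Algebra K₁ K] [Algebra L K] [IsScalarTower L K₁ K],
      IsCyclotomicExtension {p ^ 2} L K → Module.finrank L K₁ = p →
      ∀ k : ℕ, p ^ k ∣ classNumber K₁ → (k : ℝ) ≤ (1 + ε) * Module.finrank ℚ L * p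

/-- (HR, EASY-MEDIUM) Roots of order `p - 1`. Hensel's lemma (`hensels_lemma` in
`NumberTheory/Padics/Hensel.lean`) for `X^(p-1) - x` at `1`: the value `1 - x` is divisible by `p`, the
derivative `p - 1` is a unit. The root `y` is a unit because `y^(p-1)` is one. -/
def HR : Prop := ∀ (p : ℕ) [Fact p.Prime] (x : ℤ_[p]ˣ), (p : ℤ_[p]) ∣ (x : ℤ_[p]) - 1 →
  ∃ y : ℤ_[p]ˣ, y ^ (p - 1) = x

/-- (PW, EASY-MEDIUM) The character `χ^(p-1)`. `((χ g)^(p-1))^(s i) = (χ g)^((p-1) (s i))`, so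
`act (χ^(p-1)) s = act χ ((p-1) s)`. `Coc.ind`: let the hypothesis hold for `χ^(p-1)` and `s`, every
`σ`; for `ρ = (p-1) σ` the sets `{i | (p-1) s i = ρ}` and `{i | s i = σ}` agree, and if `p - 1` does not
divide `ρ` the first one is empty (constant `c = 0`). `Loc`: `con` is the same; `kind`: if `χ = 1` on `I`
so is `χ^(p-1)`; if `χ` takes all values on `I` and `x ≡ 1` modulo `p` choose `y` with `y^(p-1) = x`
(`HR`). -/
def PW : Prop := HR → ∀ (p : ℕ) [Fact p.Prime] (G : Type u) [Group G] [TopologicalSpace G]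
  (χ : G →* ℤ_[p]ˣ) (n : ℕ) (s : Fin n → ℤ) (Φ : G → Fin n → ℤ_[p]),
  FE.Coc χ (fun i => ((p : ℤ) - 1) * s i) Φ →
  FE.Coc (χ ^ (p - 1)) s Φ ∧ (∀ g, FE.act (χ ^ (p - 1)) s g = FE.act χ (fun i => ((p : ℤ) - 1) * s i) g) ∧
  ∀ I : Set G, FE.Loc χ (fun i => ((p : ℤ) - 1) * s i) Φ 0 I → FE.Loc (χ ^ (p - 1)) s Φ 1 I

/-- (FX, MEDIUM) The field `K₁`. `χ = cyc L p`, `H = Lev (χ^(p-1)) 2` contains
`Lev χ 2 = (mu L p 2).fixingSubgroup` (`KF`; `x ≡ 1` modulo `p²` implies `x^(p-1) ≡ 1`), which is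
open; so `H` is open, hence closed. `K₁ = fixedField H`; `K₁.fixingSubgroup = H`
(`InfiniteGalois.fixingSubgroup_fixedField`), `K₁ ≤ mu L p 2` (`fixedField` is antitone,
`InfiniteGalois.fixedField_fixingSubgroup`), so `K₁` is finite over `L`, of degree `H.index`
(`IntermediateField.finrank_eq_fixingSubgroup_index`). `H` is the kernel of the homomorphism
`g ↦ (χ g mod p²)^(p-1)` to `(ℤ/p²)ˣ` (`PadicInt.toZModPow`, `PadicInt.ker_toZModPow`), whose image is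
the set of all `(p-1)`-th powers as `χ` is onto: the cyclic group `(ℤ/p²)ˣ` has order `p (p-1)`, so
the image has order `p` (`IsCyclic.card_powMonoidHom_range` or count the kernel of `x ↦ x^(p-1)`). -/
def FX : Prop := FE.StKF.{u} → ∀ (L : Type u) [Field L] [NumberField L] (p : ℕ) [Fact p.Prime],
  p ≠ 2 → (∀ y : ℤ_[p]ˣ, ∃ h : GK L, cyc L p h = y) →
  ∃ K₁ : IntermediateField L (AlgebraicClosure L), FiniteDimensional L K₁ ∧ K₁ ≤ FE.mu L p 2 ∧
    Module.finrank L K₁ = p ∧ K₁.fixingSubgroup = FE.Lev ((cyc L p) ^ (p - 1)) 2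

/-- (E3, MEDIUM) The bound for the twists `r = (p-1) s`, `s ≠ 0`. `K₁` from `FX`: `cyc` is onto by the
last part of `FE.StLC` with `m = 0`, `n = 0` (empty family; `Ur L p`). Let `Φ g i = φ i g`,
`r i = (p-1) s i`, `χ = cyc L p`, `χ' = χ^(p-1)`. `FE.StCC` gives `Coc χ r Φ`, `FE.StLC` (`m = 0`)
`Loc χ r Φ 0 {h | Inr Q h}` for every prime `Q ≠ ⊥` and a `Q` with all values. By `PW`: `Coc χ' s Φ` and
`Loc χ' s Φ 1 {h | Inr Q h}`, and `HR` gives all values `≡ 1` modulo `p` of `χ'` on one of these sets.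
`FE.StG1` for `G = GK L`, `χ'` (continuous by `FE.StKF`), `m = 1`, `s i ≠ 0`, `J` the set of the
`{h | Inr Q h}`: it gives `N ≤ Lev χ' 2 = K₁.fixingSubgroup`, `N.relIndex (Lev χ' 2) = p^e`, `n ≤ e`.
`FE.StTR` for `K₁` gives `N'`, `FE.StUX` for `k = K₁` and `N'` gives `M/K₁` abelian of odd degree `p^e`,
unramified; `UCF.StUCF` gives `p^e ∣ classNumber K₁`. (Model: items E1 and EX of block FE.)
`NumberField K₁`: finite over a number field. -/
def E3 : Prop := HR → PW.{u} → FX.{u} → FE.StKF.{u} → FE.StCC.{u} → FE.StLC.{u} → FE.StG1.{u} →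
  FE.StTR.{u} → FE.StUX.{u} → UCF.StUCF.{u} →
  ∀ (L : Type u) [Field L] [NumberField L] (p : ℕ) [Fact p.Prime], p ≠ 2 → FE.Ur L p →
  ∃ (K₁ : IntermediateField L (AlgebraicClosure L)) (_ : NumberField K₁), K₁ ≤ FE.mu L p 2 ∧
    Module.finrank L K₁ = p ∧ ∀ (n : ℕ) (r : Fin n → ℤ), (∀ i, r i ≠ 0 ∧ ((p : ℤ) - 1) ∣ r i) →
    ∀ (S : Fin n → Set (HeightOneSpectrum (𝓞 L))) (φ : Fin n → GK L → ℤ_[p]),
    (∀ i, φ i ∈ ShaZ L p (r i) (S i)) → FE.Indep L p r φ → p ^ n ∣ classNumber K₁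

end Pool.Agent.Work.MP_59f3ad_nt.US.T
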