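import Pool.Agent.Work.MP_59f3ad_nt.US.T.Stmts

/-!
# Uniform Schneider, part T: item TA3
-/

set_option autoImplicit false

open NumberField IsDedekindDomain Filter Topology

namespace Pool.Agent.Work.MP_59f3ad_nt.US.T

theorem prf_TA3 : TA3 := by
  intro hE hO hCl hDc2 hDk hAs L _ _ ε hε
  have hd : 0 < Module.finrank ℚ L := Module.finrank_pos
  have hD : 0 < (discr L).natAbs := Int.natAbs_pos.mpr (NumberField.discr_ne_zero L)
  obtain ⟨p₀, hp₀⟩ := hAs (Module.finrank ℚ L) (discr L).natAbs hd hD ε hε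
  refine ⟨max p₀ (max ((discr L).natAbs + 1) 3), ?_⟩
  intro p hp hle K₁ K _ _ _ _ _ _ _ _ hcyc hK₁ k hk
  have h1 : p₀ ≤ p := le_trans (le_max_left _ _) hle
  have h2 : (discr L).natAbs + 1 ≤ p :=
    le_trans (le_trans (le_max_left _ _) (le_max_right _ _)) hle
  have h3 : 3 ≤ p := le_trans (le_trans (le_max_right _ _) (le_max_right _ _)) hle
  have hnd : ¬ (p : ℤ) ∣ discr L := by
    intro h
    have h4 : p ∣ (discr L).natAbs := Int.natCast_dvd.mp h
    have h5 := Nat.le_of_dvd hD h4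
    omega
  obtain ⟨hfin, hdisc⟩ := hDk hDc2 L K₁ K p hp (by omega) hcyc hnd hK₁
  have hcn : 0 < classNumber K₁ := Fintype.card_pos
  refine hp₀ p hp h1 k (classNumber K₁) hcn hk ?_
  intro s hs
  have h6 := hCl hE hO K₁ s hs
  have h7 : (|(discr K₁ : ℝ)|) = (((discr K₁).natAbs : ℕ) : ℝ) := by
    rw [Nat.cast_natAbs, Int.cast_abs]
  rw [h7, hfin] at h6
  refine h6.trans (mul_le_mul_of_nonneg_right ?_ ?_)
  · refine Real.rpow_le_rpow (Real.sqrt_nonneg _) (Real.sqrt_le_sqrt ?_) (by linarith)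
    exact_mod_cast hdisc
  · have hs1 : 0 < s - 1 := by linarith
    positivity

end Pool.Agent.Work.MP_59f3ad_nt.US.T
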