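import Pool.Agent.Work.MP_59f3ad_nt.US.T.Stmts

/-!
# Uniform Schneider, part T, item Dc2: degree and discriminant of `L(μ_(p²))`
-/

set_option autoImplicit false

open NumberField IsDedekindDomain

namespace Pool.Agent.Work.MP_59f3ad_nt.US.T

namespace XDc2

open IntermediateField in
theorem main (L K : Type) [Field L] [NumberField L] [Field K] [NumberField K] [Algebra L K] (p : ℕ)
    (hp : p.Prime) (_hp2 : p ≠ 2) (hcyc : IsCyclotomicExtension {p ^ 2} L K)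
    (hd : ¬ (p : ℤ) ∣ discr L) :
    Module.finrank L K = p * (p - 1) ∧
      (discr K).natAbs =
        (discr L).natAbs ^ (p * (p - 1)) * p ^ (p * (2 * p - 3) * Module.finrank ℚ L) := by
  have hfp : Fact p.Prime := ⟨hp⟩
  have : NeZero p := ⟨hp.ne_zero⟩
  have : NeZero (p ^ 2) := ⟨pow_ne_zero _ hp.ne_zero⟩
  have : NeZero ((p ^ 2 : ℕ) : L) := ⟨by exact_mod_cast pow_ne_zero 2 hp.ne_zero⟩
  have htot : (p ^ 2).totient = p * (p - 1) := by
    rw [Nat.totient_prime_pow hp (by norm_num)]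
    simp
  set ζ : K := IsCyclotomicExtension.zeta (p ^ 2) L K with hζdef
  have hζ : IsPrimitiveRoot ζ (p ^ 2) := IsCyclotomicExtension.zeta_spec (p ^ 2) L K
  have hc2 : IsCyclotomicExtension {p ^ 2} ℚ ℚ⟮ζ⟯ :=
    hζ.intermediateField_adjoin_isCyclotomicExtension ℚ
  let f : L →ₐ[ℚ] K := IsScalarTower.toAlgHom ℚ L K
  let K₁ : IntermediateField ℚ K := f.fieldRange
  let e : L ≃ₐ[ℚ] K₁ := AlgEquiv.ofInjectiveField f
  have hdis1 : discr K₁ = discr L := (NumberField.discr_eq_discr_of_algEquiv L e).symm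
  have hdis2 : (discr ℚ⟮ζ⟯).natAbs = p ^ (p * (2 * p - 3)) := by
    rw [IsCyclotomicExtension.Rat.discr_prime_pow p 2 ℚ⟮ζ⟯]
    have h1 : (p - 1) * 2 - 1 = 2 * p - 3 := by
      have := hp.two_le
      omega
    simp [Int.natAbs_mul, Int.natAbs_pow, h1]
  have hfr1 : Module.finrank ℚ K₁ = Module.finrank ℚ L := e.toLinearEquiv.finrank_eq.symm
  have hfr2 : Module.finrank ℚ ℚ⟮ζ⟯ = p * (p - 1) := by
    rw [IsCyclotomicExtension.Rat.finrank (p ^ 2) ℚ⟮ζ⟯, htot]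
  have hcop : IsCoprime (discr ℚ⟮ζ⟯) (discr K₁) := by
    rw [Int.isCoprime_iff_nat_coprime, hdis1, hdis2]
    refine Nat.Coprime.pow_left _ ?_
    rw [Nat.Prime.coprime_iff_not_dvd hp]
    intro h
    exact hd (Int.natCast_dvd.2 h)
  have hgal : IsGalois ℚ ℚ⟮ζ⟯ := IsCyclotomicExtension.isGalois {p ^ 2} ℚ ℚ⟮ζ⟯
  have hdsj : ℚ⟮ζ⟯.LinearDisjoint K₁ :=
    NumberField.linearDisjoint_of_isGalois_isCoprime_discr K ℚ⟮ζ⟯ K₁ hcop
  have htop : ℚ⟮ζ⟯ ⊔ K₁ = ⊤ := by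
    rw [eq_top_iff]
    intro x _
    have hx : x ∈ Algebra.adjoin L {b : K | ∃ n ∈ ({p ^ 2} : Set ℕ), n ≠ 0 ∧ b ^ n = 1} :=
      hcyc.adjoin_roots x
    induction hx using Algebra.adjoin_induction with
    | mem b hb =>
      obtain ⟨n, hn, -, hbn⟩ := hb
      rw [Set.mem_singleton_iff] at hn
      subst hn
      obtain ⟨i, -, rfl⟩ := hζ.eq_pow_of_pow_eq_one hbn
      exact (le_sup_left : ℚ⟮ζ⟯ ≤ ℚ⟮ζ⟯ ⊔ K₁)
        (pow_mem (IntermediateField.mem_adjoin_simple_self ℚ ζ) i)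
    | algebraMap l =>
      exact (le_sup_right : K₁ ≤ ℚ⟮ζ⟯ ⊔ K₁) ⟨l, rfl⟩
    | add a b _ _ ha hb => exact add_mem (ha trivial) (hb trivial)
    | mul a b _ _ ha hb => exact mul_mem (ha trivial) (hb trivial)
  refine ⟨?_, ?_⟩
  · have h1 := hdsj.finrank_sup
    rw [htop, finrank_top', hfr1, hfr2] at h1
    have h2 : Module.finrank ℚ L * Module.finrank L K = Module.finrank ℚ K :=
      Module.finrank_mul_finrank ℚ L K
    have h3 : 0 < Module.finrank ℚ L := Module.finrank_pos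
    rw [h1, mul_comm (p * (p - 1))] at h2
    exact Nat.eq_of_mul_eq_mul_left h3 h2
  · have h1 := NumberField.natAbs_discr_eq_natAbs_discr_pow_mul_natAbs_discr_pow K ℚ⟮ζ⟯ K₁ hdsj htop
      (NumberField.isCoprime_differentIdeal_of_isCoprime_discr _ hcop)
    rw [h1, hfr1, hfr2, hdis1, hdis2, ← pow_mul, mul_comm]

end XDc2

/-- **item Dc2** -/
theorem prf_Dc2 : Dc2 := by
  intro L K _ _ _ _ _ p hp hp2 hcyc hd
  exact XDc2.main L K p hp hp2 hcyc hd

end Pool.Agent.Work.MP_59f3ad_nt.US.T
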