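import Pool.Agent.Work.MP_59f3ad_nt.US.T.Stmts

/-!
# Uniform Schneider, part T, item Dk: degree and discriminant of the subfield of degree `p`
-/

set_option autoImplicit false

open NumberField IsDedekindDomain

namespace Pool.Agent.Work.MP_59f3ad_nt.US.T

namespace XDk

/-- If `a^n` divides `b` and `b = D^(p n) p^(p (2 n - 1) d)` with `n = p - 1`, then
`a ≤ D^p p^(2 p d)`. -/
theorem bound (a b D p n d : ℕ) (hp : 0 < p) (hn : 0 < n) (hb : b ≠ 0) (hab : a ^ n ∣ b)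
    (hbe : b = D ^ (p * n) * p ^ (p * (2 * n - 1) * d)) :
    a ≤ D ^ p * p ^ (2 * p * d) := by
  have h1 : a ^ n ≤ b := Nat.le_of_dvd (Nat.pos_of_ne_zero hb) hab
  have h2 : b ≤ (D ^ p * p ^ (2 * p * d)) ^ n := by
    rw [hbe, mul_pow, ← pow_mul, ← pow_mul]
    refine Nat.mul_le_mul_left _ (Nat.pow_le_pow_right hp ?_)
    calc p * (2 * n - 1) * d ≤ p * (2 * n) * d := by
          refine Nat.mul_le_mul_right _ (Nat.mul_le_mul_left _ (Nat.sub_le _ _))
      _ = 2 * p * d * n := by ring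
  exact (Nat.pow_le_pow_iff_left hn.ne').1 (h1.trans h2)

theorem main (hDc2 : Dc2) (L K₁ K : Type) [Field L] [NumberField L] [Field K₁] [NumberField K₁]
    [Field K] [NumberField K] [Algebra L K₁] [Algebra K₁ K] [Algebra L K] [IsScalarTower L K₁ K]
    (p : ℕ) (hp : p.Prime) (hp2 : p ≠ 2) (hcyc : IsCyclotomicExtension {p ^ 2} L K)
    (hd : ¬ (p : ℤ) ∣ discr L) (hK₁ : Module.finrank L K₁ = p) :
    Module.finrank ℚ K₁ = p * Module.finrank ℚ L ∧
      (discr K₁).natAbs ≤ (discr L).natAbs ^ p * p ^ (2 * p * Module.finrank ℚ L) := by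
  obtain ⟨hfr, hdis⟩ := hDc2 L K p hp hp2 hcyc hd
  have hp1 : 1 < p := hp.one_lt
  have h3 : Module.finrank ℚ L * Module.finrank L K₁ = Module.finrank ℚ K₁ :=
    Module.finrank_mul_finrank ℚ L K₁
  refine ⟨by rw [← h3, hK₁, mul_comm], ?_⟩
  have h4 : Module.finrank L K₁ * Module.finrank K₁ K = Module.finrank L K :=
    Module.finrank_mul_finrank L K₁ K
  rw [hK₁, hfr] at h4
  have h5 : Module.finrank K₁ K = p - 1 := Nat.eq_of_mul_eq_mul_left hp.pos h4
  have h6 : (discr K₁).natAbs ^ (p - 1) ∣ (discr K).natAbs := by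
    have := NumberField.natAbs_discr_eq_absNorm_differentIdeal_mul_natAbs_discr_pow K₁ (𝓞 K₁) K (𝓞 K)
    rw [this, h5]
    exact Dvd.intro_left _ rfl
  have h7 : (discr K).natAbs ≠ 0 := Int.natAbs_ne_zero.2 (NumberField.discr_ne_zero K)
  refine bound _ _ _ p (p - 1) _ hp.pos (by omega) h7 h6 ?_
  rw [hdis]
  have h8 : 2 * (p - 1) - 1 = 2 * p - 3 := by omega
  rw [h8]

end XDk

/-- **item Dk** -/
theorem prf_Dk : Dk := by
  intro hDc2 L K₁ K _ _ _ _ _ _ _ _ _ _ p hp hp2 hcyc hd hK₁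
  exact XDk.main hDc2 L K₁ K p hp hp2 hcyc hd hK₁

end Pool.Agent.Work.MP_59f3ad_nt.US.T
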