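import Pool.Agent.Work.MP_59f3ad_nt.US.T.Stmts

/-!
Uniform Schneider, part T, item E3: the bound for the twists `r = (p-1) s`, `s ≠ 0`.
-/

set_option autoImplicit false

open NumberField IsDedekindDomain Filter Topology

namespace Pool.Agent.Work.MP_59f3ad_nt.US.T

universe u

theorem prf_E3 : E3.{u} := by
  intro hHR hPW hFX hKF hCC hLC hG1 hTR hUX hUCF L _ _ p _ hp hUr
  have hsurj : ∀ y : ℤ_[p]ˣ, ∃ h : GK L, cyc L p h = y := by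
    obtain ⟨-, Q, -, -, hQ⟩ := hLC L p hp 0 Fin.elim0 Fin.elim0 Fin.elim0 (fun i => i.elim0) 0
      (Or.inr ⟨rfl, hUr⟩)
    intro y
    obtain ⟨h, -, hh⟩ := hQ y (by rw [pow_zero]; exact one_dvd _)
    exact ⟨h, hh⟩
  obtain ⟨K₁, hfin, hle, hdeg, hLev⟩ := hFX hKF L p hp hsurj
  have hnK : NumberField K₁ := NumberField.of_module_finite L K₁
  refine ⟨K₁, hnK, hle, hdeg, fun n r hr S φ hφ hind => ?_⟩
  obtain ⟨s, hs⟩ : ∃ s : Fin n → ℤ, r = fun i => ((p : ℤ) - 1) * s i := by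
    choose s hs using fun i => (hr i).2
    exact ⟨s, funext hs⟩
  have hs0 : ∀ i, s i ≠ 0 := by
    intro i h
    refine (hr i).1 ?_
    rw [hs]
    simp only [h, mul_zero]
  subst hs
  have hcoc := hCC L p n _ φ (fun i => (hφ i).1.1) hind
  obtain ⟨hloc, Q0, hQ0, hQ0b, hQ0v⟩ := hLC L p hp n _ S φ hφ 0 (Or.inr ⟨rfl, hUr⟩)
  obtain ⟨hcoc', -, hloc'⟩ := hPW hHR p (GK L) (cyc L p) n s (fun g i => φ i g) hcoc
  have hcont : Continuous (cyc L p) := (hKF L p).1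
  have hcont' : Continuous ((cyc L p) ^ (p - 1) : GK L →* ℤ_[p]ˣ) := hcont.pow (p - 1)
  obtain ⟨N, e, h1, h2, h3, h4, h5, h6⟩ := hG1 p hp (GK L) ((cyc L p) ^ (p - 1)) hcont' n 1 s
    (fun g i => φ i g) le_rfl hs0 hcoc'
    {I | ∃ Q : Ideal (𝓞 (AlgebraicClosure L)), Q.IsPrime ∧ Q ≠ ⊥ ∧ I = {h : GK L | FE.Inr Q h}}
    (by rintro I ⟨Q, hQ, hQb, rfl⟩; exact hloc' _ (hloc Q hQ hQb))
    ⟨_, ⟨Q0, hQ0, hQ0b, rfl⟩, fun x hx => by
      obtain ⟨y, hy⟩ := hHR p x (by simpa using hx)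
      obtain ⟨h, hh1, hh2⟩ := hQ0v y (by rw [pow_zero]; exact one_dvd _)
      refine ⟨h, hh1, ?_⟩
      rw [MonoidHom.pow_apply, hh2, hy]⟩
  rw [show 1 + 1 = 2 from rfl, ← hLev] at h1 h3 h5
  have h4' : ∀ Q : Ideal (𝓞 (AlgebraicClosure L)), Q.IsPrime → Q ≠ ⊥ → ∀ h : GK L, FE.Inr Q h →
      h ∈ K₁.fixingSubgroup → h ∈ N := by
    intro Q hQ hQb h hh hl
    rw [hLev] at hl
    exact h4 _ ⟨Q, hQ, hQb, rfl⟩ h hh hl
  obtain ⟨hac, N', hN', hnor, hop', hcm', hin2, hidx⟩ := hTR L K₁ N h1 h2 h3 h4'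
  obtain ⟨M, hMN, hMf, hMg, hMd, hMc, hMu⟩ := hUX K₁ (AlgebraicClosure L) N' hop' hcm' hin2
  have hnM : NumberField M := NumberField.of_module_finite K₁ M
  have hfin2 : Module.finrank K₁ M = p ^ e := by rw [hMd, hidx, h5]
  have hodd : Odd (Module.finrank K₁ M) := by
    rw [hfin2]
    exact ((Fact.out : p.Prime).odd_of_ne_two hp).pow
  have hdvd := (hUCF K₁ M hMc hodd hMu).2
  rw [hfin2] at hdvd
  exact (pow_dvd_pow p h6).trans hdvd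

end Pool.Agent.Work.MP_59f3ad_nt.US.T
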