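import Pool.Agent.Work.MP_59f3ad_nt.US.T.Stmts

/-!
# Uniform Schneider, part T, item FX: the field `K₁` of degree `p`
-/

set_option autoImplicit false

open NumberField IsDedekindDomain Filter Topology

namespace Pool.Agent.Work.MP_59f3ad_nt.US.T

universe u

namespace XFX

/-- reduction of a `p`-adic unit modulo `p ^ 2` -/
noncomputable def red (p : ℕ) [Fact p.Prime] : ℤ_[p]ˣ →* (ZMod (p ^ 2))ˣ :=
  Units.map (PadicInt.toZModPow 2 : ℤ_[p] →+* ZMod (p ^ 2)).toMonoidHom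

theorem red_surj (p : ℕ) [Fact p.Prime] : Function.Surjective (red p) := by
  have : Fact (1 < p ^ 2) := ⟨Nat.one_lt_pow two_ne_zero (Fact.out : p.Prime).one_lt⟩
  have hs : Function.Surjective (PadicInt.toZModPow 2 : ℤ_[p] →+* ZMod (p ^ 2)) :=
    ZMod.ringHom_surjective _
  exact IsLocalRing.surjective_units_map_of_local_ringHom _ hs (IsLocalHom.of_surjective _ hs)

theorem red_eq_one (p : ℕ) [Fact p.Prime] (x : ℤ_[p]ˣ) :
    red p x = 1 ↔ (p : ℤ_[p]) ^ 2 ∣ (x : ℤ_[p]) - 1 := by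
  rw [Units.ext_iff]
  show PadicInt.toZModPow 2 (x : ℤ_[p]) = 1 ↔ _
  rw [← Ideal.mem_span_singleton, ← PadicInt.ker_toZModPow, RingHom.mem_ker, map_sub, map_one,
    sub_eq_zero]

/-- the homomorphism `g ↦ (χ g mod p²)^(p-1)` -/
noncomputable def hm {G : Type u} [Group G] (p : ℕ) [Fact p.Prime] (χ : G →* ℤ_[p]ˣ) :
    G →* (ZMod (p ^ 2))ˣ :=
  (powMonoidHom (p - 1)).comp ((red p).comp χ)

theorem ker_hm {G : Type u} [Group G] (p : ℕ) [Fact p.Prime] (χ : G →* ℤ_[p]ˣ) :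
    (hm p χ).ker = FE.Lev (χ ^ (p - 1)) 2 := by
  ext g
  rw [MonoidHom.mem_ker]
  show (red p (χ g)) ^ (p - 1) = 1 ↔
    (p : ℤ_[p]) ^ 2 ∣ (((χ ^ (p - 1)) g : ℤ_[p]ˣ) : ℤ_[p]) - 1
  rw [← red_eq_one, MonoidHom.pow_apply, map_pow]

theorem index_Lev {G : Type u} [Group G] (p : ℕ) [Fact p.Prime] (hp2 : p ≠ 2)
    (χ : G →* ℤ_[p]ˣ) (hχ : Function.Surjective χ) : (FE.Lev (χ ^ (p - 1)) 2).index = p := by
  have hp : p.Prime := Fact.out
  rw [← ker_hm, Subgroup.index_ker]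
  have h1 : (hm p χ).range = (powMonoidHom (p - 1) : (ZMod (p ^ 2))ˣ →* _).range := by
    have hs : Function.Surjective ((red p).comp χ) := (red_surj p).comp hχ
    unfold hm
    rw [MonoidHom.range_comp, MonoidHom.range_eq_top.mpr hs, ← MonoidHom.range_eq_map]
  rw [h1]
  have : IsCyclic (ZMod (p ^ 2))ˣ := ZMod.isCyclic_units_of_prime_pow p hp hp2 2
  have : NeZero (p ^ 2) := ⟨pow_ne_zero _ hp.ne_zero⟩
  have hp1 : 0 < p - 1 := Nat.sub_pos_of_lt hp.one_lt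
  rw [IsCyclic.card_powMonoidHom_range, Nat.card_eq_fintype_card, ZMod.card_units_eq_totient,
    Nat.totient_prime_pow hp (by norm_num : 0 < 2)]
  rw [Nat.gcd_eq_right (Dvd.intro_left _ rfl), Nat.mul_div_cancel _ hp1]
  norm_num

theorem Lev_le {G : Type u} [Group G] (p : ℕ) [Fact p.Prime] (χ : G →* ℤ_[p]ˣ) (n : ℕ) :
    FE.Lev χ 2 ≤ FE.Lev (χ ^ n) 2 := by
  intro g hg
  have hg' : (p : ℤ_[p]) ^ 2 ∣ (χ g : ℤ_[p]) - 1 := hg
  show (p : ℤ_[p]) ^ 2 ∣ (((χ ^ n) g : ℤ_[p]ˣ) : ℤ_[p]) - 1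
  rw [MonoidHom.pow_apply, Units.val_pow_eq_pow_val]
  refine hg'.trans ?_
  have h := sub_dvd_pow_sub_pow (χ g : ℤ_[p]) 1 n
  rwa [one_pow] at h

end XFX

open XFX

theorem prf_FX : FX.{u} := by
  intro hKF L _ _ p _ hp2 hsurj
  obtain ⟨-, hk⟩ := hKF L p
  obtain ⟨hLev, hfin, -⟩ := hk 2
  have hle : (FE.mu L p 2).fixingSubgroup ≤ FE.Lev ((cyc L p) ^ (p - 1)) 2 := by
    rw [← hLev]
    exact Lev_le p (cyc L p) (p - 1)
  have hopen0 : IsOpen ((FE.mu L p 2).fixingSubgroup : Set (GK L)) :=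
    IntermediateField.fixingSubgroup_isOpen _
  have hopen : IsOpen ((FE.Lev ((cyc L p) ^ (p - 1)) 2 : Subgroup (GK L)) : Set (GK L)) :=
    Subgroup.isOpen_mono hle hopen0
  have hclosed : IsClosed ((FE.Lev ((cyc L p) ^ (p - 1)) 2 : Subgroup (GK L)) : Set (GK L)) :=
    Subgroup.isClosed_of_isOpen _ hopen
  have hfix : (IntermediateField.fixedField
      (FE.Lev ((cyc L p) ^ (p - 1)) 2 : Subgroup (GK L))).fixingSubgroup =
      FE.Lev ((cyc L p) ^ (p - 1)) 2 :=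
    InfiniteGalois.fixingSubgroup_fixedField
      (⟨FE.Lev ((cyc L p) ^ (p - 1)) 2, hclosed⟩ : ClosedSubgroup (GK L))
  have hKle : IntermediateField.fixedField
      (FE.Lev ((cyc L p) ^ (p - 1)) 2 : Subgroup (GK L)) ≤ FE.mu L p 2 := by
    have h := InfiniteGalois.fixedField_fixingSubgroup (FE.mu L p 2)
    rw [← h]
    intro x hx
    rw [IntermediateField.mem_fixedField_iff] at hx ⊢
    exact fun f hf => hx f (hle hf)
  refine ⟨IntermediateField.fixedField (FE.Lev ((cyc L p) ^ (p - 1)) 2 : Subgroup (GK L)),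
    ?_, hKle, ?_, hfix⟩
  · exact FiniteDimensional.of_injective (IntermediateField.inclusion hKle).toLinearMap
      (IntermediateField.inclusion hKle).injective
  · rw [IntermediateField.finrank_eq_fixingSubgroup_index, hfix]
    exact index_Lev p hp2 (cyc L p) hsurj

end Pool.Agent.Work.MP_59f3ad_nt.US.T
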