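import Pool.Agent.Work.MP_59f3ad_nt.US.T.Stmts

/-!
Item (HR) of the block US/T of MP_59f3ad_nt (helper90): roots of order `p - 1` of the units
congruent to `1` modulo `p`.
-/

set_option autoImplicit false

open Polynomial

namespace Pool.Agent.Work.MP_59f3ad_nt.US.T

theorem prf_HR : HR := by
  intro p hp x hx
  have hp2 : 2 ≤ p := hp.out.two_le
  have hder : (X ^ (p - 1) - C (x : ℤ_[p]) : ℤ_[p][X]).derivative.aeval (1 : ℤ_[p]) =
      ((p - 1 : ℕ) : ℤ_[p]) := by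
    rw [derivative_sub, derivative_C, sub_zero, derivative_X_pow]
    simp
  have hn1 : ‖(((p - 1 : ℕ) : ℤ_[p]))‖ = 1 := by
    rw [PadicInt.norm_natCast_eq_one_iff]
    rw [Nat.coprime_iff_gcd_eq_one]
    have h1 : Nat.Coprime p (p - 1) := by
      refine (Nat.Prime.coprime_iff_not_dvd hp.out).2 fun h => ?_
      have := Nat.le_of_dvd (by omega) h
      omega
    exact h1
  have hval : (X ^ (p - 1) - C (x : ℤ_[p]) : ℤ_[p][X]).aeval (1 : ℤ_[p]) = 1 - (x : ℤ_[p]) := by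
    simp
  have hlt : ‖(X ^ (p - 1) - C (x : ℤ_[p]) : ℤ_[p][X]).aeval (1 : ℤ_[p])‖ <
      ‖(X ^ (p - 1) - C (x : ℤ_[p]) : ℤ_[p][X]).derivative.aeval (1 : ℤ_[p])‖ ^ 2 := by
    rw [hder, hn1, hval, one_pow, PadicInt.norm_lt_one_iff_dvd, ← neg_sub]
    exact (dvd_neg).2 hx
  obtain ⟨y, hy, -⟩ := hensels_lemma hlt
  have hy1 : y ^ (p - 1) = (x : ℤ_[p]) := by
    simpa [sub_eq_zero] using hy
  have hu : IsUnit y := by
    have h1 : IsUnit (y ^ (p - 1)) := by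
      rw [hy1]
      exact x.isUnit
    exact (isUnit_pow_iff (by omega)).1 h1
  refine ⟨hu.unit, ?_⟩
  apply Units.ext
  rw [Units.val_pow_eq_pow_val, IsUnit.unit_spec, hy1]

end Pool.Agent.Work.MP_59f3ad_nt.US.T
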