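import Pool.Agent.Work.MP_59f3ad_nt.US.T.Stmts

/-!
Block US/T, item PW: the power of the cyclotomic character.
-/

set_option autoImplicit false

open NumberField IsDedekindDomain

namespace Pool.Agent.Work.MP_59f3ad_nt.US.T

universe u

namespace XPW

theorem zp {M : Type u} [Group M] (x : M) (p : ℕ) (hp : 1 ≤ p) (σ : ℤ) :
    (x ^ (p - 1)) ^ σ = x ^ (((p : ℤ) - 1) * σ) := by
  rw [zpow_mul, ← zpow_natCast x (p - 1), Nat.cast_sub hp, Nat.cast_one]

end XPW

theorem prf_PW : PW.{u} := by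
  intro hHR p hpf G _ _ χ n s Φ hC
  have hp1 : 1 ≤ p := hpf.out.one_lt.le
  have hp0 : ((p : ℤ) - 1) ≠ 0 := by
    have := hpf.out.one_lt
    omega
  have hval : ∀ (g : G) (σ : ℤ), ((χ ^ (p - 1)) g) ^ σ = (χ g) ^ (((p : ℤ) - 1) * σ) := by
    intro g σ
    rw [MonoidHom.pow_apply, zpow_mul, ← zpow_natCast (χ g) (p - 1), Nat.cast_sub hp1,
      Nat.cast_one]
  have hact : ∀ g, FE.act (χ ^ (p - 1)) s g = FE.act χ (fun i => ((p : ℤ) - 1) * s i) g := by
    intro g
    funext i
    simp only [FE.act]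
    rw [hval]
  refine ⟨⟨hC.cont, ?_, ?_⟩, hact, ?_⟩
  · intro g h
    rw [hact]
    exact hC.mul g h
  · intro a ha
    refine hC.ind a ?_
    intro ρ
    by_cases hd : ((p : ℤ) - 1) ∣ ρ
    · obtain ⟨σ, rfl⟩ := hd
      obtain ⟨c, hc⟩ := ha σ
      refine ⟨c, fun g => ?_⟩
      have h1 := hc g
      rw [hval] at h1
      rw [← h1]
      refine Finset.sum_congr ?_ fun _ _ => rfl
      ext i
      simp only [Finset.mem_filter, Finset.mem_univ, true_and]
      exact ⟨fun h => mul_left_cancel₀ hp0 h, fun h => by rw [h]⟩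
    · refine ⟨0, fun g => ?_⟩
      rw [mul_zero]
      refine Finset.sum_eq_zero ?_
      intro i hi
      rw [Finset.mem_filter] at hi
      exact absurd ⟨s i, hi.2.symm⟩ hd
  · intro I hI
    refine ⟨?_, ?_⟩
    · obtain ⟨c, hc⟩ := hI.con
      refine ⟨c, fun h hh => ?_⟩
      rw [hact]
      exact hc h hh
    · rcases hI.kind with h1 | h1
      · left
        intro h hh
        rw [MonoidHom.pow_apply, h1 h hh, one_pow]
      · right
        intro x hx
        rw [pow_one] at hx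
        obtain ⟨y, hy⟩ := hHR p x hx
        obtain ⟨h, hh, hhy⟩ := h1 y (by rw [pow_zero]; exact one_dvd _)
        exact ⟨h, hh, by rw [MonoidHom.pow_apply, hhy, hy]⟩

end Pool.Agent.Work.MP_59f3ad_nt.US.T
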